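import Pool.Agent.H41.HC.Stmt

/-! Limits along ultrafilters. -/

set_option autoImplicit false

open Set Filter

namespace Pool.Agent.HC

section
variable {ι β : Type} [Finite β]

theorem lm_spec (F : Ultrafilter ι) (f : ι → β) : ∀ᶠ i in F, f i = lm F f := (lm_ex F f).choose_spec

theorem lm_eq {F : Ultrafilter ι} {f : ι → β} {b : β} (h : ∀ᶠ i in F, f i = b) : lm F f = b := by
  obtain ⟨i, h1, h2⟩ := ((lm_spec F f).and h).exists
  rw [← h1, h2]

theorem lm_congr {F : Ultrafilter ι} {f g : ι → β} (h : ∀ᶠ i in F, f i = g i) :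
    lm F f = lm F g := by
  refine lm_eq ?_
  filter_upwards [h, lm_spec F g] with i h1 h2
  rw [h1, h2]

theorem lm_map {κ : Type} (F : Ultrafilter ι) (m : ι → κ) (f : κ → β) :
    lm (F.map m) f = lm F fun i => f (m i) := by
  refine lm_eq ?_
  rw [Ultrafilter.coe_map, Filter.eventually_map]
  exact lm_spec F fun i => f (m i)

theorem ev_bind {κ : Type} (F : Ultrafilter ι) (V : ι → Ultrafilter κ) (p : κ → Prop) :
    (∀ᶠ y in (F.bind V : Ultrafilter κ), p y) ↔ ∀ᶠ i in F, ∀ᶠ y in V i, p y := by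
  rw [Filter.Eventually, Filter.Eventually]
  exact Iff.rfl

theorem lm_bind {κ : Type} (F : Ultrafilter ι) (V : ι → Ultrafilter κ) (f : κ → β) :
    lm (F.bind V) f = lm F fun i => lm (V i) f := by
  refine lm_eq ?_
  rw [ev_bind]
  filter_upwards [lm_spec F fun i => lm (V i) f] with i hi
  filter_upwards [lm_spec (V i) f] with y hy
  rw [hy, hi]

theorem lm_swap {L : Type} [Finite L] (F : Ultrafilter ι) (f : ι → L × L) :
    lm F (fun i => (f i).swap) = (lm F f).swap := by
  refine lm_eq ?_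
  filter_upwards [lm_spec F f] with i hi
  rw [hi]

theorem lm_pure (i : ι) (f : ι → β) : lm (pure i : Ultrafilter ι) f = f i := by
  refine lm_eq ?_
  rw [Ultrafilter.coe_pure, Filter.eventually_pure]

end

variable {L : Type} [Finite L] {c : ℕ → ℕ → L}

omit [Finite L] in
theorem pr_swap (x y : ℕ) : (pr c x y).swap = pr c y x := rfl

omit [Finite L] in
theorem pr_sym (x : ℕ) : pr c x x = (pr c x x).swap := rfl

theorem row_spec (V : Ultrafilter ℕ) (x : ℕ) : ∀ᶠ y in V, pr c x y = row c V x := lm_spec V _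

theorem dd_spec (V W : Ultrafilter ℕ) : ∀ᶠ x in V, row c W x = dd c V W := lm_spec V _

theorem NP.ne {V : Ultrafilter ℕ} (h : NP V) (S : Set ℕ) (hS : S.Finite) : ∀ᶠ y in V, y ∉ S :=
  h S hS

theorem NP.inf {V : Ultrafilter ℕ} (h : NP V) {S : Set ℕ} (hS : S ∈ V) : S.Infinite := by
  intro hf
  have h1 := h S hf
  exact Ultrafilter.compl_notMem_iff.2 hS h1

theorem np_of_inf {V : Ultrafilter ℕ} (h : ∀ S ∈ V, S.Infinite) : NP V := by
  intro S hS
  by_contra hcon
  exact h S (Ultrafilter.compl_mem_iff_notMem.not_left.1 hcon) hS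

theorem np_bind {ι : Type} {T : Ultrafilter ι} {V : ι → Ultrafilter ℕ} (h : ∀ t, NP (V t)) :
    NP (T.bind V) := by
  intro S hS
  change ∀ᶠ y in (T.bind V : Ultrafilter ℕ), y ∈ Sᶜ
  rw [ev_bind]
  exact Filter.Eventually.of_forall fun t => h t S hS

/-- an ultrafilter which contains an infinite set is contained in a nonprincipal one -/
theorem exists_np {S : Set ℕ} (hS : S.Infinite) : ∃ V : Ultrafilter ℕ, S ∈ V ∧ NP V := by
  have h1 : (Filter.cofinite ⊓ 𝓟 S : Filter ℕ).NeBot := by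
    rw [Filter.inf_principal_neBot_iff]
    intro A hA
    rw [Filter.mem_cofinite] at hA
    have h2 : (S \ Aᶜ).Infinite := hS.diff hA
    obtain ⟨x, hx⟩ := h2.nonempty
    exact ⟨x, by simpa using hx.2, hx.1⟩
  refine ⟨Ultrafilter.of (Filter.cofinite ⊓ 𝓟 S), ?_, ?_⟩
  · exact Ultrafilter.of_le _ (Filter.mem_inf_of_right (Filter.mem_principal_self S))
  · intro A hA
    refine Ultrafilter.of_le _ (Filter.mem_inf_of_left ?_)
    rw [Filter.mem_cofinite, compl_compl]
    exact hA

end Pool.Agent.HC
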