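import Pool.Agent.H41.HC.Stmt
import Pool.Agent.H71.CW.FinG
import Pool.Agent.H16.TK.NFM
import Mathlib.Data.Nat.Nth

/-!
Hereditary classes without perfectly many types consist of small structures.
-/

set_option autoImplicit false

open Set

namespace Pool.Agent.HC

open Pool.Agent.CW Pool.Agent.TK

section

variable {n : ℕ} {C : Type}

/-- induced substructure, relabelled -/
def pb (x : (ℕ → ℕ → Fin n) × (ℕ → C)) (f : ℕ → ℕ) : (ℕ → ℕ → Fin n) × (ℕ → C) :=
  (fun i j => x.1 (f i) (f j), fun i => x.2 (f i))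

open Classical in
/-- the enumeration of `A` that starts with `z` -/
noncomputable def en (A : Set ℕ) (z : ℕ) : ℕ → ℕ
  | 0 => z
  | i + 1 => Nat.nth (fun v => v ∈ A ∧ v ≠ z) i

lemma inf_ne {A : Set ℕ} (hA : A.Infinite) (z : ℕ) : {v | v ∈ A ∧ v ≠ z}.Infinite := by
  refine (hA.diff (finite_singleton z)).mono ?_
  rintro v ⟨h1, h2⟩
  exact ⟨h1, h2⟩

lemma en_mem {A : Set ℕ} (hA : A.Infinite) {z : ℕ} (hz : z ∈ A) (i : ℕ) : en A z i ∈ A := by
  cases i with
  | zero => exact hz
  | succ i => exact (Nat.nth_mem_of_infinite (inf_ne hA z) i).1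

lemma en_inj {A : Set ℕ} (hA : A.Infinite) (z : ℕ) : Function.Injective (en A z) := by
  intro i j h
  cases i with
  | zero =>
    cases j with
    | zero => rfl
    | succ j => exact absurd h.symm (Nat.nth_mem_of_infinite (inf_ne hA z) j).2
  | succ i =>
    cases j with
    | zero => exact absurd h (Nat.nth_mem_of_infinite (inf_ne hA z) i).2
    | succ j => rw [Nat.nth_injective (inf_ne hA z) h]

lemma en_sur {A : Set ℕ} (hA : A.Infinite) (z : ℕ) {v : ℕ} (hv : v ∈ A) :
    ∃ i, en A z i = v := by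
  by_cases h : v = z
  · exact ⟨0, h.symm⟩
  · have h1 : v ∈ range (Nat.nth (fun v => v ∈ A ∧ v ≠ z)) := by
      rw [Nat.range_nth_of_infinite (inf_ne hA z)]
      exact ⟨hv, h⟩
    obtain ⟨i, hi⟩ := h1
    exact ⟨i + 1, hi⟩

lemma meas_count {P : Type} [MeasurableSpace P] {p : P → ℕ → Prop}
    [∀ K, DecidablePred (p K)] (hp : ∀ v, MeasurableSet {K | p K v}) :
    ∀ k i, MeasurableSet {K | Nat.count (p K) k = i} := by
  intro k
  induction k with
  | zero =>
    intro i
    simp only [Nat.count_zero]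
    exact MeasurableSet.const _
  | succ k ih =>
    intro i
    have h : {K | Nat.count (p K) (k + 1) = i} =
        ({K | p K k} ∩ {K | Nat.count (p K) k + 1 = i}) ∪
          ({K | p K k}ᶜ ∩ {K | Nat.count (p K) k = i}) := by
      ext K
      simp only [mem_setOf_eq, mem_union, mem_inter_iff, mem_compl_iff, Nat.count_succ]
      by_cases h : p K k <;> simp [h]
    rw [h]
    refine ((hp k).inter ?_).union ((hp k).compl.inter (ih i))
    cases i with
    | zero => simp
    | succ i =>
      simp only [Nat.add_right_cancel_iff]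
      exact ih i

lemma meas_en {P : Type} [MeasurableSpace P] {A : P → Set ℕ}
    (hA : ∀ v, MeasurableSet {K | v ∈ A K}) (hi : ∀ K, (A K).Infinite) (z i : ℕ) :
    Measurable fun K => en (A K) z i := by
  classical
  cases i with
  | zero => exact measurable_const
  | succ i =>
    refine measurable_to_countable' fun k => ?_
    have hp : ∀ v, MeasurableSet {K | v ∈ A K ∧ v ≠ z} := fun v => (hA v).inter (MeasurableSet.const _)
    have h : (fun K => en (A K) z (i + 1)) ⁻¹' {k} =
        {K | k ∈ A K ∧ k ≠ z} ∩ {K | Nat.count (fun v => v ∈ A K ∧ v ≠ z) k = i} := by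
      ext K
      simp only [mem_preimage, mem_singleton_iff, mem_inter_iff, mem_setOf_eq, en]
      constructor
      · rintro rfl
        refine ⟨Nat.nth_mem_of_infinite (inf_ne (hi K) z) i, ?_⟩
        exact Nat.count_nth_of_infinite (inf_ne (hi K) z) i
      · rintro ⟨h1, h2⟩
        rw [← h2]
        exact Nat.nth_count (p := fun v => v ∈ A K ∧ v ≠ z) h1
    rw [h]
    exact (hp k).inter (meas_count hp k i)

lemma meas_pb [MeasurableSpace C] {P : Type} [MeasurableSpace P] (x : (ℕ → ℕ → Fin n) × (ℕ → C))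
    {f : P → ℕ → ℕ} (hf : ∀ i, Measurable fun K => f K i) : Measurable fun K => pb x (f K) := by
  refine Measurable.prodMk ?_ ?_
  · refine measurable_pi_lambda _ fun i => measurable_pi_lambda _ fun j => ?_
    exact (measurable_of_countable (fun q : ℕ × ℕ => x.1 q.1 q.2)).comp ((hf i).prodMk (hf j))
  · refine measurable_pi_lambda _ fun i => ?_
    exact (measurable_of_countable (fun q : ℕ => x.2 q)).comp (hf i)

/-- **CL.** -/
theorem small_of [MeasurableSpace C] [StandardBorelSpace C]
    (X : Set ((ℕ → ℕ → Fin n) × (ℕ → C)))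
    (hher : ∀ x ∈ X, ∀ f : ℕ → ℕ, Function.Injective f → pb x f ∈ X) (hP : ¬ PerfD X)
    (x : (ℕ → ℕ → Fin n) × (ℕ → C)) (hx : x ∈ X) : Small x.1 := by
  classical
  intro A z hA hi hz
  by_contra hcon
  push Not at hcon
  apply hP
  set F : (ℕ → Bool) → (ℕ → ℕ → Fin n) × (ℕ → C) := fun K => pb x (en (A K) z) with hF
  have hFm : Measurable F := meas_pb x fun i => meas_en hA hi z i
  have hFX : ∀ K, F K ∈ X := fun K => hher x hx _ (en_inj (hi K) z)
  -- isomorphisms which fix `0`
  have key : ∀ K K', K ≠ K' → ∀ g : Equiv.Perm ℕ,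
      (∀ i j, (F K').1 (g i) (g j) = (F K).1 i j) → g 0 ≠ 0 := by
    intro K K' hne g hg h0
    have hr : ∀ v : ℕ, v ∈ A K → ∃ i, en (A K) z i = v := fun v hv => en_sur (hi K) z hv
    choose! r hr using hr
    refine hcon K K' hne (fun v => en (A K') z (g (r v))) ⟨?_, ?_, ?_⟩ ?_ ?_
    · intro v hv
      exact en_mem (hi K') (hz K') _
    · intro v hv w hw h
      have h1 := g.injective (en_inj (hi K') z h)
      rw [← hr v hv, ← hr w hw, h1]
    · intro w hw
      obtain ⟨i, rfl⟩ := en_sur (hi K') z hw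
      refine ⟨en (A K) z (g.symm i), en_mem (hi K) (hz K) _, ?_⟩
      have h1 := hr _ (en_mem (hi K) (hz K) (g.symm i))
      have h2 := en_inj (hi K) z h1
      change en (A K') z (g (r (en (A K) z (g.symm i)))) = en (A K') z i
      rw [h2, Equiv.apply_symm_apply]
    · intro v hv w hw
      have h1 := hg (r v) (r w)
      have h2 := hg (r w) (r v)
      change x.1 (en (A K') z (g (r v))) (en (A K') z (g (r w))) =
        x.1 (en (A K) z (r v)) (en (A K) z (r w)) at h1
      change x.1 (en (A K') z (g (r w))) (en (A K') z (g (r v))) =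
        x.1 (en (A K) z (r w)) (en (A K) z (r v)) at h2
      rw [hr v hv, hr w hw] at h1 h2
      exact Prod.ext h1 h2
    · have h1 : en (A K) z (r z) = en (A K) z 0 := hr z (hz K)
      have h2 := en_inj (hi K) z h1
      change en (A K') z (g (r z)) = z
      rw [h2, h0]
      rfl
  let c0 : C := x.2 0
  have hR : MeasureTheory.AnalyticSet
      {p : (ℕ → Bool) × (ℕ → Bool) | Iso (enc c0 (F p.1)) (enc c0 (F p.2))} := by
    have hf : Measurable fun K => enc c0 (F K) := (measurable_enc c0).comp hFm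
    have h1 := Pool.Agent.H71.DST.analyticSet_proj
      (measurableSet_iso (P := (ℕ → Bool) × (ℕ → Bool)) (f := fun p => enc c0 (F p.1))
        (f' := fun p => enc c0 (F p.2)) (hf.comp measurable_fst) (hf.comp measurable_snd))
    have h2 : {p : (ℕ → Bool) × (ℕ → Bool) | Iso (enc c0 (F p.1)) (enc c0 (F p.2))} =
        {x | ∃ y : (ℕ → ℕ) × (ℕ → ℕ), (x, y) ∈
          {p : ((ℕ → Bool) × (ℕ → Bool)) × ((ℕ → ℕ) × (ℕ → ℕ)) | (∀ n, p.2.1 (p.2.2 n) = n) ∧
      (∀ n, p.2.2 (p.2.1 n) = n) ∧
      (∀ u v, (enc c0 (F p.1.1)).1 u v = (enc c0 (F p.1.2)).1 (p.2.1 u) (p.2.1 v)) ∧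
      ∀ l : List ℕ, (enc c0 (F p.1.1)).2 l = (enc c0 (F p.1.2)).2 (l.map p.2.1)}} := by
      ext p
      exact iso_iff
    rw [h2]
    exact h1
  have hsec : ∀ K, {K' | (K, K') ∈ {p : (ℕ → Bool) × (ℕ → Bool) |
      Iso (enc c0 (F p.1)) (enc c0 (F p.2))}}.Countable := by
    intro K
    have hch : ∀ y : {K' // Iso (enc c0 (F K)) (enc c0 (F K'))}, ∃ g : Equiv.Perm ℕ,
        ∀ i j, (F y.1).1 (g i) (g j) = (F K).1 i j := by
      rintro ⟨y, hy⟩
      obtain ⟨g, hg, -⟩ := iso_enc_inv hy
      exact ⟨g, hg⟩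
    choose h hh using hch
    have hinj : Function.Injective
        (fun y : {K' // Iso (enc c0 (F K)) (enc c0 (F K'))} => (h y).symm 0) := by
      intro y y' hyy
      by_contra hne
      have hne' : y.1 ≠ y'.1 := fun e => hne (Subtype.ext e)
      refine key y.1 y'.1 hne' ((h y).symm.trans (h y')) (fun i j => ?_) ?_
      · have e1 := hh y ((h y).symm i) ((h y).symm j)
        have e2 := hh y' ((h y).symm i) ((h y).symm j)
        rw [Equiv.apply_symm_apply, Equiv.apply_symm_apply] at e1
        rw [e1]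
        exact e2
      · have h1 : (h y).symm 0 = (h y').symm 0 := hyy
        rw [Equiv.trans_apply, h1, Equiv.apply_symm_apply]
    exact (countable_coe_iff (s := {K' | Iso (enc c0 (F K)) (enc c0 (F K'))})).1
      (Function.Injective.countable hinj)
  obtain ⟨e, he1, -, he3⟩ := Pool.Agent.H71.DST.exists_perfect_of_countable_sections hR hsec
  refine ⟨fun u => F (e u), hFm.comp he1.measurable, fun u => hFX _, fun u v huv hg => ?_⟩
  exact he3 u v huv ((isoD_iff (c0 := c0)).1 hg)

end

end Pool.Agent.HC
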