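import Pool.Agent.H41.HC.Basic

/-! F1 - F6. -/

set_option autoImplicit false

open Set Filter

namespace Pool.Agent.HC

theorem bind_const (V W : Ultrafilter ℕ) : (V.bind fun _ => W) = W := by
  ext s
  change (∀ᶠ y in ((V.bind fun _ => W : Ultrafilter ℕ) : Filter ℕ), y ∈ s) ↔ s ∈ W
  rw [ev_bind]
  constructor
  · intro h
    obtain ⟨_, h1⟩ := h.exists
    exact h1
  · intro h
    exact Filter.Eventually.of_forall fun _ => h

theorem bind_pure_snd (Φ : Ultrafilter (ℕ × ℕ)) :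
    (Φ.bind fun t => (pure t.2 : Ultrafilter ℕ)) = Φ.map Prod.snd := by
  ext s
  change (∀ᶠ y in ((Φ.bind fun t => (pure t.2 : Ultrafilter ℕ) : Ultrafilter ℕ) : Filter ℕ),
    y ∈ s) ↔ ∀ᶠ y in ((Φ.map Prod.snd : Ultrafilter ℕ) : Filter ℕ), y ∈ s
  rw [ev_bind, Ultrafilter.coe_map, Filter.eventually_map]
  refine Filter.eventually_congr (Filter.Eventually.of_forall fun t => ?_)
  rw [Ultrafilter.coe_pure, Filter.eventually_pure]

theorem pf_F1 (L : Type) [Finite L] (hGC : T_GC L) (hCO1 : T_CO1 L) : T_F1 L := by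
  intro c hc V W z hV hW hz
  obtain ⟨x', y', h1, h2⟩ := hGC c ℕ V id (fun _ => W) (fun _ => 1) z
    (by rw [Ultrafilter.map_id]; exact hV) (by rw [bind_const]; exact hW)
    (Or.inl fun _ => le_rfl) (Filter.Eventually.of_forall fun t =>
      (hW.ne {t} (Set.finite_singleton t)))
  rw [Ultrafilter.map_id, bind_const] at h1 h2
  exact hCO1 c hc _ _ _ _ _ _ _ _ _ _ _ _ h1 (fun _ => le_rfl) h2 hz

theorem pf_F2 (L : Type) [Finite L] (hGC : T_GC L) (hCO2 : T_CO2 L) (hF1 : T_F1 L) :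
    T_F2 L := by
  intro c hc Φ z hV hW hz hX
  have hne : ∀ᶠ t : ℕ × ℕ in (Φ : Filter (ℕ × ℕ)),
      ∀ᶠ y in ((pure t.2 : Ultrafilter ℕ) : Filter ℕ), y ≠ t.1 := by
    have e1 := row_spec (c := c) (Φ.map Prod.fst) z
    have e2 := row_spec (c := c) (Φ.map Prod.snd) z
    rw [Ultrafilter.coe_map, Filter.eventually_map] at e1 e2
    filter_upwards [e1, e2] with t h1 h2
    rw [Ultrafilter.coe_pure, Filter.eventually_pure]
    intro e
    rw [e] at h2
    exact hz (h1.symm.trans h2)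
  obtain ⟨x', y', h1, h2⟩ := hGC c (ℕ × ℕ) Φ Prod.fst (fun t => pure t.2) (fun _ => 1) z
    hV (by rw [bind_pure_snd]; exact hW) (Or.inl fun _ => le_rfl) hne
  rw [bind_pure_snd] at h1 h2
  have h3 := hCO2 c hc _ _ _ _ _ _ _ _ _ _ _ _ h1 (fun _ => le_rfl) h2 hz hX
    (hF1 c hc _ _ z hV hW hz)
  rw [← h3]
  refine lm_congr (Filter.Eventually.of_forall fun t => ?_)
  exact (lm_pure t.2 fun y => pr c t.1 y).symm

theorem pf_F4 (L : Type) [Finite L] (hGC : T_GC L) (hCO4 : T_CO4 L) : T_F4 L := by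
  intro c hc V W hV hW hr hX hA
  obtain ⟨x', y', h1, h2⟩ := hGC c ℕ V id (fun _ => W) (fun _ => 1) 0
    (by rw [Ultrafilter.map_id]; exact hV) (by rw [bind_const]; exact hW)
    (Or.inl fun _ => le_rfl) (Filter.Eventually.of_forall fun t =>
      (hW.ne {t} (Set.finite_singleton t)))
  rw [Ultrafilter.map_id, bind_const] at h1
  have e1 : dd c V W = dd c V V := by rw [dd, dd, hr]
  have e2 : dd c W V = dd c W W := by rw [dd, dd, hr]
  rw [e1, e2] at h1
  exact hCO4 c hc _ _ _ _ _ _ _ h1 (fun _ => le_rfl) hX hA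

theorem pf_F5 (L : Type) [Finite L] (hGC : T_GC L) (hCO7 : T_CO7 L) : T_F5 L := by
  intro c hc T V hT hV
  obtain ⟨x', y', h1, h2⟩ := hGC c ℕ T id V (fun i => i + 2) 0
    (by rw [Ultrafilter.map_id]; exact hT) (np_bind hV)
    (Or.inr hV) (Filter.Eventually.of_forall fun t =>
      ((hV t).ne {t} (Set.finite_singleton t)))
  exact hCO7 c hc _ _ _ _ _ _ _ _ _ h1 (fun _ => rfl)

theorem ev_row {ι L : Type} [Finite L] (c : ℕ → ℕ → L) (T : Ultrafilter ι)
    (V : ι → Ultrafilter ℕ) (p : ℕ) : ∀ᶠ t in T, row c (V t) p = row c (T.bind V) p := by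
  have h1 : row c (T.bind V) p = lm T fun t => row c (V t) p := lm_bind T V _
  rw [h1]
  exact lm_spec T fun t => row c (V t) p

theorem pf_F3 (L : Type) [Finite L] (hGC : T_GC L) (hCO3 : T_CO3 L) (hCO4 : T_CO4 L)
    (hCO5 : T_CO5 L) (hCO6 : T_CO6 L) (hF1 : T_F1 L) (hF5 : T_F5 L) : T_F3 L := by
  intro c hc T V hT hV hcell
  by_contra hcon
  rw [← Ultrafilter.eventually_not] at hcon
  have hex : ∀ t, ∃ x, row c (V t) = row c (T.bind V) ∨
      row c (V t) x ≠ row c (T.bind V) x := by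
    intro t
    by_cases h : row c (V t) = row c (T.bind V)
    · exact ⟨0, Or.inl h⟩
    · obtain ⟨x, hx⟩ := Function.ne_iff.1 h
      exact ⟨x, Or.inr hx⟩
  choose x hx using hex
  have hx' : ∀ᶠ t in T, row c (V t) (x t) ≠ row c (T.bind V) (x t) := by
    filter_upwards [hcon] with t ht
    exact (hx t).resolve_left ht
  have hW : NP (T.bind V) := np_bind hV
  have hΞ : NP (T.map x) := by
    intro S hS
    change ∀ᶠ y in ((T.map x : Ultrafilter ℕ) : Filter ℕ), y ∈ Sᶜ
    rw [Ultrafilter.coe_map, Filter.eventually_map]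
    have h1 : ∀ᶠ t in T, ∀ a ∈ S, row c (V t) a = row c (T.bind V) a := by
      rw [eventually_all_finite hS]
      exact fun a _ => ev_row c T V a
    filter_upwards [h1, hx'] with t h2 h3 h4
    exact h3 (h2 _ h4)
  have hne : ∀ᶠ t in T, ∀ᶠ y in V t, y ≠ x t := Filter.Eventually.of_forall fun t =>
    ((hV t).ne {x t} (Set.finite_singleton _))
  -- labels
  have hB : (lm T fun t => dd c (V t) (V t)) = (lm T fun t => dd c (V t) (V t)).swap := by
    rw [← lm_swap]
    exact lm_congr (Filter.Eventually.of_forall hcell)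
  have hBA : (lm T fun t => dd c (V t) (V t)) = dd c (T.bind V) (T.bind V) ∧
      dd c (T.bind V) (T.bind V) = (dd c (T.bind V) (T.bind V)).swap := by
    rcases hF5 c hc T V hT hV with h | h
    · exact ⟨h, by rw [← h]; exact hB⟩
    · have h2 : dd c (T.bind V) (T.bind V) = lm T fun t => dd c (V t) (V t) := by
        rw [hB, h, Prod.swap_swap]
      exact ⟨h2.symm, by rw [h2]; exact hB⟩
  have hα : dd c (T.map x) (T.bind V) = lm T fun t => row c (T.bind V) (x t) :=
    lm_map T x (row c (T.bind V))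
  have hγ : (lm T fun t => row c (V t) (x t)) ≠ dd c (T.map x) (T.bind V) := by
    intro h
    rw [hα] at h
    have h1 := lm_spec T fun t => row c (V t) (x t)
    have h2 := lm_spec T fun t => row c (T.bind V) (x t)
    obtain ⟨t, h3, h4, h5⟩ := (h1.and (h2.and hx')).exists
    exact h5 (h3.trans (h.trans h4.symm))
  by_cases hz : ∃ z, row c (T.map x) z ≠ row c (T.bind V) z
  · obtain ⟨z, hz⟩ := hz
    obtain ⟨x', y', h1, h2⟩ := hGC c ℕ T x V (fun i => i + 2) z hΞ hW (Or.inr hV) hne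
    exact hγ (hCO3 c hc _ _ _ _ _ _ _ _ _ _ _ _ h1 (fun _ => rfl) h2 hz
      (hF1 c hc _ _ z hΞ hW hz))
  · push Not at hz
    have hr : row c (T.map x) = row c (T.bind V) := funext hz
    obtain ⟨x', y', h1, -⟩ := hGC c ℕ T x V (fun i => i + 2) 0 hΞ hW (Or.inr hV) hne
    have e1 : dd c (T.map x) (T.map x) = dd c (T.map x) (T.bind V) := by
      rw [dd, dd, hr]
    have e2 : dd c (T.bind V) (T.map x) = dd c (T.bind V) (T.bind V) := by
      rw [dd, dd, hr]
    rw [e1, e2] at h1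
    have hs : ∀ i : ℕ, 1 ≤ i + 2 := fun i => by omega
    by_cases hs1 : dd c (T.map x) (T.bind V) = (dd c (T.map x) (T.bind V)).swap
    · by_cases hs2 : dd c (T.bind V) (T.bind V) = dd c (T.map x) (T.bind V)
      · rw [← hs2, hBA.1] at h1
        exact hγ ((hCO6 c hc _ _ _ _ _ h1 (fun _ => rfl) hBA.2).trans hs2)
      · exact hCO5 c hc _ _ _ _ _ _ _ h1 hs hs1 hBA.2 hs2 hγ
    · exact hCO4 c hc _ _ _ _ _ _ _ h1 hs hs1 hBA.2

theorem pf_F6 (L : Type) [Finite L] (hF4 : T_F4 L) (hF5 : T_F5 L) : T_F6 L := by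
  intro c hc T V W hT hV hch hW hcell hr
  have hB : (lm T fun t => dd c (V t) (V t)) ≠ (lm T fun t => dd c (V t) (V t)).swap := by
    intro h
    obtain ⟨t, ht⟩ := (lm_spec T fun t => dd c (V t) (V t)).exists
    exact hch t (by rw [ht]; exact h)
  refine hF4 c hc (T.bind V) W (np_bind hV) hW hr.symm ?_ hcell
  intro h
  apply hB
  rcases hF5 c hc T V hT hV with h1 | h1
  · rw [h1]
    exact h
  · rw [h1, Prod.swap_swap]
    exact h.symm

end Pool.Agent.HC
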