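import Pool.Agent.H41.HC.IDX
import Pool.Agent.H41.HC.Facts

/-! FIN: small structures have finitely many germs at every direction. -/

set_option autoImplicit false

open Set Filter

namespace Pool.Agent.HC

section
variable {L : Type} [Finite L] {c : ℕ → ℕ → L}

/-- a property of ultrafilters which holds for one of finitely many values -/
theorem ev_fin {ι β : Type} {R : Set β} (hR : R.Finite) (T : Ultrafilter ι) (f : ι → β)
    (h : ∀ t, f t ∈ R) : ∃ b ∈ R, ∀ᶠ t in T, f t = b := by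
  have := hR.to_subtype
  obtain ⟨b, hb⟩ := lm_ex T fun t => (⟨f t, h t⟩ : R)
  refine ⟨b, b.2, ?_⟩
  filter_upwards [hb] with t ht
  exact congrArg Subtype.val ht

omit [Finite L] in
theorem fip_fin {S : Set ℕ} (hS : S.Finite) : FiP c S := by
  classical
  have := hS.to_subtype
  obtain ⟨k, ⟨e⟩⟩ := Finite.exists_equiv_fin S
  refine ⟨k + 1, fun a => if h : a ∈ S then (e ⟨a, h⟩).castSucc else Fin.last k,
    fun a ha a' ha' h z _ => ?_⟩
  simp only [ha, ha', dite_true, Fin.castSucc_inj, EmbeddingLike.apply_eq_iff_eq,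
    Subtype.mk.injEq] at h
  rw [h]

/-- the main tool: a set is of finite index if chains inside and ultrafilters outside always have
distinct rows -/
theorem fip_of (hF1 : T_F1 L) (hF2 : T_F2 L) (hI : T_IDX L) (hc : Small c) (P : Set ℕ)
    (h : ∀ V W : Ultrafilter ℕ, NP V → NP W → P ∈ V → Pᶜ ∈ W →
      dd c V V ≠ (dd c V V).swap ∧ row c V ≠ row c W) : FiP c P := by
  by_contra hcon
  obtain ⟨Φ, h1, h2, h3, h4⟩ := hI c P hcon
  have hP : P ∈ Φ.map Prod.fst := by
    change ∀ᶠ y in ((Φ.map Prod.fst : Ultrafilter ℕ) : Filter ℕ), y ∈ P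
    rw [Ultrafilter.coe_map, Filter.eventually_map]
    filter_upwards [h3] with p hp
    exact hp.1
  have hP' : Pᶜ ∈ Φ.map Prod.snd := by
    change ∀ᶠ y in ((Φ.map Prod.snd : Ultrafilter ℕ) : Filter ℕ), y ∈ Pᶜ
    rw [Ultrafilter.coe_map, Filter.eventually_map]
    filter_upwards [h3] with p hp
    exact hp.2
  obtain ⟨h5, h6⟩ := h _ _ h1 h2 hP hP'
  obtain ⟨z, hz⟩ := Function.ne_iff.1 h6
  apply h4
  rw [hF2 c hc Φ z h1 h2 hz h5]
  exact hF1 c hc _ _ z h1 h2 hz

/-- extension of a family closed under intersection to an ultrafilter -/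
theorem ext_uf {U : Set (Set ℕ)} (hne : U.Nonempty) (hint : ∀ A ∈ U, ∀ B ∈ U, A ∩ B ∈ U)
    (D : Set ℕ) (hD : ∀ A ∈ U, (A ∩ D).Nonempty) :
    ∃ V : Ultrafilter ℕ, (∀ A ∈ U, A ∈ V) ∧ D ∈ V := by
  let F : Filter ℕ :=
    { sets := {S | ∃ A ∈ U, A ⊆ S}
      univ_sets := by
        obtain ⟨A, hA⟩ := hne
        exact ⟨A, hA, subset_univ _⟩
      sets_of_superset := by
        rintro S S' ⟨A, hA, h⟩ hS
        exact ⟨A, hA, h.trans hS⟩
      inter_sets := by
        rintro S S' ⟨A, hA, h⟩ ⟨A', hA', h'⟩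
        exact ⟨A ∩ A', hint A hA A' hA', inter_subset_inter h h'⟩ }
  have hmem : ∀ A ∈ U, A ∈ F := fun A hA => ⟨A, hA, subset_rfl⟩
  have hNB : (F ⊓ 𝓟 D).NeBot := by
    rw [Filter.inf_principal_neBot_iff]
    rintro S ⟨A, hA, hAS⟩
    exact (hD A hA).mono (inter_subset_inter_left _ hAS)
  refine ⟨Ultrafilter.of (F ⊓ 𝓟 D), fun A hA => ?_, ?_⟩
  · exact Ultrafilter.of_le _ (Filter.mem_inf_of_left (hmem A hA))
  · exact Ultrafilter.of_le _ (Filter.mem_inf_of_right (Filter.mem_principal_self D))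

end

theorem pf_FIN (L : Type) [Finite L] (hF1 : T_F1 L) (hF2 : T_F2 L) (hF3 : T_F3 L)
    (hF4 : T_F4 L) (hF6 : T_F6 L) (hI : T_IDX L) : T_FIN L := by
  classical
  intro c hc U hU
  -- the rows of the cells
  let R : Set (ℕ → L × L) := {ρ | ∃ V : Ultrafilter ℕ, NP V ∧ dd c V V = (dd c V V).swap ∧
    row c V = ρ}
  have hR : R.Finite := by
    by_contra hinf
    let emb := Set.Infinite.natEmbedding R hinf
    choose V hV1 hV2 hV3 using fun t : ℕ => (emb t).2
    have h1 := hF3 c hc (Filter.hyperfilter ℕ) V np_hyper hV1 hV2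
    have h2 : ∀ᶠ t in (Filter.hyperfilter ℕ : Ultrafilter ℕ),
        ¬ row c (V t) = row c ((Filter.hyperfilter ℕ : Ultrafilter ℕ).bind V) := by
      refine ev_sub np_hyper fun t t' h h' => ?_
      have h3 : (emb t : ℕ → L × L) = emb t' := by
        rw [← hV3 t, ← hV3 t', h, h']
      exact emb.injective (Subtype.ext h3)
    obtain ⟨t, h3, h4⟩ := (h1.and h2).exists
    exact h4 h3
  -- finitely many points separate the chains from the cells
  have hk : ∃ k : ℕ, ∀ V : Ultrafilter ℕ, NP V → dd c V V ≠ (dd c V V).swap → ∀ ρ ∈ R,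
      ∃ s, s < k ∧ row c V s ≠ ρ s := by
    by_contra hcon
    push Not at hcon
    choose V hV1 hV2 ρ hρ hVρ using hcon
    obtain ⟨b, hb, hb'⟩ := ev_fin hR (Filter.hyperfilter ℕ : Ultrafilter ℕ) ρ hρ
    obtain ⟨W, hW1, hW2, hW3⟩ := hb
    refine hF6 c hc (Filter.hyperfilter ℕ) V W np_hyper hV1 hV2 hW1 hW2 ?_
    funext s
    have h1 := ev_row c (Filter.hyperfilter ℕ : Ultrafilter ℕ) V s
    have h2 : ∀ᶠ k in (Filter.hyperfilter ℕ : Ultrafilter ℕ), k ∉ Set.Iic s :=
      np_hyper.ne _ (Set.finite_Iic s)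
    obtain ⟨k, h3, h4, h5⟩ := (h1.and (h2.and hb')).exists
    rw [← h3, hVρ k s (by simpa using h4), h5, hW3]
  obtain ⟨k, hk⟩ := hk
  let Nc : Set ℕ := {y | ∃ ρ ∈ R, ∀ s, s < k → pr c s y = ρ s}
  have hrows : ∀ V : Ultrafilter ℕ, ∀ᶠ y in V, ∀ s, s < k → pr c s y = row c V s := by
    intro V
    have h1 : ∀ᶠ y in V, ∀ s ∈ Set.Iio k, pr c s y = row c V s := by
      rw [eventually_all_finite (Set.finite_Iio k)]
      exact fun s _ => row_spec V s
    filter_upwards [h1] with y hy s hs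
    exact hy s hs
  have hcell : ∀ V : Ultrafilter ℕ, NP V → dd c V V = (dd c V V).swap → Nc ∈ V := by
    intro V hV h
    filter_upwards [hrows V] with y hy
    exact ⟨row c V, ⟨V, hV, h, rfl⟩, hy⟩
  have hchain : ∀ V : Ultrafilter ℕ, NP V → dd c V V ≠ (dd c V V).swap → Ncᶜ ∈ V := by
    intro V hV h
    filter_upwards [hrows V] with y hy
    rintro ⟨ρ, hρ, h1⟩
    obtain ⟨s, hs, h2⟩ := hk V hV h ρ hρ
    exact h2 ((hy s hs).symm.trans (h1 s hs))
  have hch' : ∀ V : Ultrafilter ℕ, NP V → Ncᶜ ∈ V → dd c V V ≠ (dd c V V).swap := by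
    intro V hV h h1
    exact Ultrafilter.compl_notMem_iff.2 (hcell V hV h1) h
  have hce' : ∀ V : Ultrafilter ℕ, NP V → Nc ∈ V → dd c V V = (dd c V V).swap := by
    intro V hV h
    by_contra h1
    exact Ultrafilter.compl_notMem_iff.2 h (hchain V hV h1)
  -- chains live on a set of finite index
  have hfi : FiP c Ncᶜ := by
    refine fip_of hF1 hF2 hI hc _ fun V W hV hW h h' => ⟨hch' V hV h, fun e => ?_⟩
    rw [compl_compl] at h'
    exact hF4 c hc V W hV hW e (hch' V hV h) (hce' W hW h')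
  -- sets with finite complement are in `U`
  have hcof : ∀ S : Set ℕ, S.Finite → Sᶜ ∈ U := by
    intro S hS
    rcases hU.ult S (fip_fin hS) with h | h
    · exact absurd hS (hU.fi S h).2
    · exact h
  rcases hU.ult _ hfi with h | h
  · -- the direction is on the chains
    have hNP : ∀ V : Ultrafilter ℕ, (∀ A ∈ U, A ∈ V) → NP V := fun V hV S hS =>
      hV _ (hcof S hS)
    have hrow : ∀ V W : Ultrafilter ℕ, (∀ A ∈ U, A ∈ V) → (∀ A ∈ U, A ∈ W) →
        row c V = row c W := by
      intro V W hV hW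
      by_contra hne
      obtain ⟨z, hz⟩ := Function.ne_iff.1 hne
      let P : Set ℕ := {y | y ∈ Ncᶜ ∧ pr c z y = row c V z}
      have hPV : P ∈ V := by
        filter_upwards [hV _ h, row_spec (c := c) V z] with y h1 h2
        exact ⟨h1, h2⟩
      have hPW : Pᶜ ∈ W := by
        filter_upwards [row_spec (c := c) W z] with y h1 h2
        exact hz (h2.2.symm.trans h1)
      have hPf : FiP c P := by
        refine fip_of hF1 hF2 hI hc _ fun V' W' hV' hW' h1 h2 => ?_
        have h3 : Ncᶜ ∈ V' := Filter.mem_of_superset h1 fun y hy => hy.1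
        have h4 : row c V' z = row c V z := by
          obtain ⟨y, h5, h6⟩ := ((row_spec (c := c) V' z).and h1).exists
          rw [← h5]
          exact h6.2
        refine ⟨hch' V' hV' h3, fun e => ?_⟩
        by_cases h5 : Ncᶜ ∈ W'
        · have h6 : row c W' z ≠ row c V z := by
            intro h7
            obtain ⟨y, h8, h9, h10⟩ := ((row_spec (c := c) W' z).and
              ((show ∀ᶠ y in W', y ∈ Ncᶜ from h5).and (show ∀ᶠ y in W', y ∈ Pᶜ from h2))).exists
            exact h10 ⟨h9, h8.trans h7⟩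
          exact h6 (by rw [← e, h4])
        · have h6 : Nc ∈ W' := by
            rw [← compl_compl Nc]
            exact Ultrafilter.compl_mem_iff_notMem.2 h5
          exact hF4 c hc V' W' hV' hW' e (hch' V' hV' h3) (hce' W' hW' h6)
      rcases hU.ult P hPf with h1 | h1
      · exact Ultrafilter.compl_notMem_iff.2 (hW _ h1) hPW
      · exact Ultrafilter.compl_notMem_iff.2 hPV (hV _ h1)
    obtain ⟨V0, hV0, -⟩ := ext_uf ⟨_, h⟩ hU.int univ (fun A hA => by
      rw [inter_univ]
      exact (hU.fi A hA).2.nonempty)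
    have hfin : (range (row c V0)).Finite := Set.toFinite _
    choose! rep hrep using fun (b : L × L) (hb : b ∈ range (row c V0)) => hb
    refine ⟨hfin.toFinset.image rep, fun a => ⟨rep (row c V0 a), ?_, ?_⟩⟩
    · rw [Finset.mem_image]
      exact ⟨_, hfin.mem_toFinset.2 (mem_range_self a), rfl⟩
    · have hr : row c V0 (rep (row c V0 a)) = row c V0 a := hrep _ (mem_range_self a)
      by_contra hcon
      push Not at hcon
      obtain ⟨V, hV, hD⟩ := ext_uf ⟨_, h⟩ hU.int
        {y | pr c a y ≠ pr c (rep (row c V0 a)) y} fun A hA => by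
          obtain ⟨y, hy, hy'⟩ := hcon A hA
          exact ⟨y, hy, hy'⟩
      have h1 := hrow V V0 hV hV0
      obtain ⟨y, h2, h3, h4⟩ := ((row_spec (c := c) V a).and
        ((row_spec (c := c) V (rep (row c V0 a))).and
        (show ∀ᶠ y in V, y ∈ {y | pr c a y ≠ pr c (rep (row c V0 a)) y} from hD))).exists
      exact h4 (by rw [h2, h3, h1, hr])
  · -- the direction is on the cells
    rw [compl_compl] at h
    have := hR.to_subtype
    let φ : ℕ → R → L × L := fun a ρ => (ρ : ℕ → L × L) a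
    have hfin : (range φ).Finite := Set.toFinite _
    choose! rep hrep using fun (b : R → L × L) (hb : b ∈ range φ) => hb
    refine ⟨hfin.toFinset.image rep, fun a => ⟨rep (φ a), ?_, ?_⟩⟩
    · rw [Finset.mem_image]
      exact ⟨_, hfin.mem_toFinset.2 (mem_range_self a), rfl⟩
    · have hr : φ (rep (φ a)) = φ a := hrep _ (mem_range_self a)
      let D : Set ℕ := {y | y ∈ Nc ∧ pr c a y ≠ pr c (rep (φ a)) y}
      have hD : D.Finite := by
        by_contra hinf
        obtain ⟨V, hV1, hV2⟩ := exists_np (S := D) hinf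
        have h1 : Nc ∈ V := Filter.mem_of_superset hV1 fun y hy => hy.1
        have h2 : row c V ∈ R := ⟨V, hV2, hce' V hV2 h1, rfl⟩
        have h3 : row c V (rep (φ a)) = row c V a := congrFun hr ⟨row c V, h2⟩
        obtain ⟨y, h4, h5, h6⟩ := ((row_spec (c := c) V a).and
          ((row_spec (c := c) V (rep (φ a))).and (show ∀ᶠ y in V, y ∈ D from hV1))).exists
        exact h6.2 (by rw [h4, h5, h3])
      refine ⟨Nc ∩ Dᶜ, hU.int _ h _ (hcof D hD), fun y hy => ?_⟩
      by_contra hne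
      exact hy.2 ⟨hy.1, hne⟩

end Pool.Agent.HC
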