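import Pool.Agent.H41.HC.FIN

/-! FIN with a bound for the number of germs that does not depend on the direction. -/

set_option autoImplicit false

open Set Filter

namespace Pool.Agent.HC

theorem card_tf {β : Type} [Finite β] {s : Set β} (h : s.Finite) :
    h.toFinset.card ≤ Nat.card β := by
  have := Fintype.ofFinite β
  rw [Nat.card_eq_fintype_card]
  exact Finset.card_le_univ _

theorem pf_FINU (L : Type) [Finite L] (hF1 : T_F1 L) (hF2 : T_F2 L) (hF3 : T_F3 L)
    (hF4 : T_F4 L) (hF6 : T_F6 L) (hI : T_IDX L) :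
    ∀ (c : ℕ → ℕ → L), Small c → ∃ m : ℕ, ∀ U, Dr c U →
      ∃ E : Finset ℕ, E.card ≤ m ∧ ∀ a, ∃ r ∈ E, ∃ A ∈ U, ∀ y ∈ A, pr c a y = pr c r y := by
  classical
  intro c hc
  -- the rows of the cells
  let R : Set (ℕ → L × L) := {ρ | ∃ V : Ultrafilter ℕ, NP V ∧ dd c V V = (dd c V V).swap ∧
    row c V = ρ}
  have hR : R.Finite := by
    by_contra hinf
    let emb := Set.Infinite.natEmbedding R hinf
    choose V hV1 hV2 hV3 using fun t : ℕ => (emb t).2
    have h1 := hF3 c hc (Filter.hyperfilter ℕ) V np_hyper hV1 hV2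
    have h2 : ∀ᶠ t in (Filter.hyperfilter ℕ : Ultrafilter ℕ),
        ¬ row c (V t) = row c ((Filter.hyperfilter ℕ : Ultrafilter ℕ).bind V) := by
      refine ev_sub np_hyper fun t t' h h' => ?_
      have h3 : (emb t : ℕ → L × L) = emb t' := by
        rw [← hV3 t, ← hV3 t', h, h']
      exact emb.injective (Subtype.ext h3)
    obtain ⟨t, h3, h4⟩ := (h1.and h2).exists
    exact h4 h3
  -- finitely many points separate the chains from the cells
  have hk : ∃ k : ℕ, ∀ V : Ultrafilter ℕ, NP V → dd c V V ≠ (dd c V V).swap → ∀ ρ ∈ R,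
      ∃ s, s < k ∧ row c V s ≠ ρ s := by
    by_contra hcon
    push Not at hcon
    choose V hV1 hV2 ρ hρ hVρ using hcon
    obtain ⟨b, hb, hb'⟩ := ev_fin hR (Filter.hyperfilter ℕ : Ultrafilter ℕ) ρ hρ
    obtain ⟨W, hW1, hW2, hW3⟩ := hb
    refine hF6 c hc (Filter.hyperfilter ℕ) V W np_hyper hV1 hV2 hW1 hW2 ?_
    funext s
    have h1 := ev_row c (Filter.hyperfilter ℕ : Ultrafilter ℕ) V s
    have h2 : ∀ᶠ k in (Filter.hyperfilter ℕ : Ultrafilter ℕ), k ∉ Set.Iic s :=
      np_hyper.ne _ (Set.finite_Iic s)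
    obtain ⟨k, h3, h4, h5⟩ := (h1.and (h2.and hb')).exists
    rw [← h3, hVρ k s (by simpa using h4), h5, hW3]
  obtain ⟨k, hk⟩ := hk
  let Nc : Set ℕ := {y | ∃ ρ ∈ R, ∀ s, s < k → pr c s y = ρ s}
  have hrows : ∀ V : Ultrafilter ℕ, ∀ᶠ y in V, ∀ s, s < k → pr c s y = row c V s := by
    intro V
    have h1 : ∀ᶠ y in V, ∀ s ∈ Set.Iio k, pr c s y = row c V s := by
      rw [eventually_all_finite (Set.finite_Iio k)]
      exact fun s _ => row_spec V s
    filter_upwards [h1] with y hy s hs
    exact hy s hs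
  have hcell : ∀ V : Ultrafilter ℕ, NP V → dd c V V = (dd c V V).swap → Nc ∈ V := by
    intro V hV h
    filter_upwards [hrows V] with y hy
    exact ⟨row c V, ⟨V, hV, h, rfl⟩, hy⟩
  have hchain : ∀ V : Ultrafilter ℕ, NP V → dd c V V ≠ (dd c V V).swap → Ncᶜ ∈ V := by
    intro V hV h
    filter_upwards [hrows V] with y hy
    rintro ⟨ρ, hρ, h1⟩
    obtain ⟨s, hs, h2⟩ := hk V hV h ρ hρ
    exact h2 ((hy s hs).symm.trans (h1 s hs))
  have hch' : ∀ V : Ultrafilter ℕ, NP V → Ncᶜ ∈ V → dd c V V ≠ (dd c V V).swap := by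
    intro V hV h h1
    exact Ultrafilter.compl_notMem_iff.2 (hcell V hV h1) h
  have hce' : ∀ V : Ultrafilter ℕ, NP V → Nc ∈ V → dd c V V = (dd c V V).swap := by
    intro V hV h
    by_contra h1
    exact Ultrafilter.compl_notMem_iff.2 h (hchain V hV h1)
  -- chains live on a set of finite index
  have hfi : FiP c Ncᶜ := by
    refine fip_of hF1 hF2 hI hc _ fun V W hV hW h h' => ⟨hch' V hV h, fun e => ?_⟩
    rw [compl_compl] at h'
    exact hF4 c hc V W hV hW e (hch' V hV h) (hce' W hW h')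
  have hRf : Finite R := hR.to_subtype
  refine ⟨Nat.card (L × L) + Nat.card (R → L × L), fun U hU => ?_⟩
  -- sets with finite complement are in `U`
  have hcof : ∀ S : Set ℕ, S.Finite → Sᶜ ∈ U := by
    intro S hS
    rcases hU.ult S (fip_fin hS) with h | h
    · exact absurd hS (hU.fi S h).2
    · exact h
  rcases hU.ult _ hfi with h | h
  · -- the direction is on the chains
    have hNP : ∀ V : Ultrafilter ℕ, (∀ A ∈ U, A ∈ V) → NP V := fun V hV S hS =>
      hV _ (hcof S hS)
    have hrow : ∀ V W : Ultrafilter ℕ, (∀ A ∈ U, A ∈ V) → (∀ A ∈ U, A ∈ W) →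
        row c V = row c W := by
      intro V W hV hW
      by_contra hne
      obtain ⟨z, hz⟩ := Function.ne_iff.1 hne
      let P : Set ℕ := {y | y ∈ Ncᶜ ∧ pr c z y = row c V z}
      have hPV : P ∈ V := by
        filter_upwards [hV _ h, row_spec (c := c) V z] with y h1 h2
        exact ⟨h1, h2⟩
      have hPW : Pᶜ ∈ W := by
        filter_upwards [row_spec (c := c) W z] with y h1 h2
        exact hz (h2.2.symm.trans h1)
      have hPf : FiP c P := by
        refine fip_of hF1 hF2 hI hc _ fun V' W' hV' hW' h1 h2 => ?_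
        have h3 : Ncᶜ ∈ V' := Filter.mem_of_superset h1 fun y hy => hy.1
        have h4 : row c V' z = row c V z := by
          obtain ⟨y, h5, h6⟩ := ((row_spec (c := c) V' z).and h1).exists
          rw [← h5]
          exact h6.2
        refine ⟨hch' V' hV' h3, fun e => ?_⟩
        by_cases h5 : Ncᶜ ∈ W'
        · have h6 : row c W' z ≠ row c V z := by
            intro h7
            obtain ⟨y, h8, h9, h10⟩ := ((row_spec (c := c) W' z).and
              ((show ∀ᶠ y in W', y ∈ Ncᶜ from h5).and (show ∀ᶠ y in W', y ∈ Pᶜ from h2))).exists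
            exact h10 ⟨h9, h8.trans h7⟩
          exact h6 (by rw [← e, h4])
        · have h6 : Nc ∈ W' := by
            rw [← compl_compl Nc]
            exact Ultrafilter.compl_mem_iff_notMem.2 h5
          exact hF4 c hc V' W' hV' hW' e (hch' V' hV' h3) (hce' W' hW' h6)
      rcases hU.ult P hPf with h1 | h1
      · exact Ultrafilter.compl_notMem_iff.2 (hW _ h1) hPW
      · exact Ultrafilter.compl_notMem_iff.2 hPV (hV _ h1)
    obtain ⟨V0, hV0, -⟩ := ext_uf ⟨_, h⟩ hU.int univ (fun A hA => by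
      rw [inter_univ]
      exact (hU.fi A hA).2.nonempty)
    have hfin : (range (row c V0)).Finite := Set.toFinite _
    choose! rep hrep using fun (b : L × L) (hb : b ∈ range (row c V0)) => hb
    refine ⟨hfin.toFinset.image rep,
      (Finset.card_image_le.trans (card_tf hfin)).trans (Nat.le_add_right _ _),
      fun a => ⟨rep (row c V0 a), ?_, ?_⟩⟩
    · rw [Finset.mem_image]
      exact ⟨_, hfin.mem_toFinset.2 (mem_range_self a), rfl⟩
    · have hr : row c V0 (rep (row c V0 a)) = row c V0 a := hrep _ (mem_range_self a)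
      by_contra hcon
      push Not at hcon
      obtain ⟨V, hV, hD⟩ := ext_uf ⟨_, h⟩ hU.int
        {y | pr c a y ≠ pr c (rep (row c V0 a)) y} fun A hA => by
          obtain ⟨y, hy, hy'⟩ := hcon A hA
          exact ⟨y, hy, hy'⟩
      have h1 := hrow V V0 hV hV0
      obtain ⟨y, h2, h3, h4⟩ := ((row_spec (c := c) V a).and
        ((row_spec (c := c) V (rep (row c V0 a))).and
        (show ∀ᶠ y in V, y ∈ {y | pr c a y ≠ pr c (rep (row c V0 a)) y} from hD))).exists
      exact h4 (by rw [h2, h3, h1, hr])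
  · -- the direction is on the cells
    rw [compl_compl] at h
    let φ : ℕ → R → L × L := fun a ρ => (ρ : ℕ → L × L) a
    have hfin : (range φ).Finite := Set.toFinite _
    choose! rep hrep using fun (b : R → L × L) (hb : b ∈ range φ) => hb
    refine ⟨hfin.toFinset.image rep,
      (Finset.card_image_le.trans (card_tf hfin)).trans (Nat.le_add_left _ _),
      fun a => ⟨rep (φ a), ?_, ?_⟩⟩
    · rw [Finset.mem_image]
      exact ⟨_, hfin.mem_toFinset.2 (mem_range_self a), rfl⟩
    · have hr : φ (rep (φ a)) = φ a := hrep _ (mem_range_self a)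
      let D : Set ℕ := {y | y ∈ Nc ∧ pr c a y ≠ pr c (rep (φ a)) y}
      have hD : D.Finite := by
        by_contra hinf
        obtain ⟨V, hV1, hV2⟩ := exists_np (S := D) hinf
        have h1 : Nc ∈ V := Filter.mem_of_superset hV1 fun y hy => hy.1
        have h2 : row c V ∈ R := ⟨V, hV2, hce' V hV2 h1, rfl⟩
        have h3 : row c V (rep (φ a)) = row c V a := congrFun hr ⟨row c V, h2⟩
        obtain ⟨y, h4, h5, h6⟩ := ((row_spec (c := c) V a).and
          ((row_spec (c := c) V (rep (φ a))).and (show ∀ᶠ y in V, y ∈ D from hV1))).exists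
        exact h6.2 (by rw [h4, h5, h3])
      refine ⟨Nc ∩ Dᶜ, hU.int _ h _ (hcof D hD), fun y hy => ?_⟩
      by_contra hne
      exact hy.2 ⟨hy.1, hne⟩

end Pool.Agent.HC
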