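import Pool.Agent.H41.HC.Basic

/-! GC: configurations from ultrafilters. -/

set_option autoImplicit false

open Set Filter

namespace Pool.Agent.HC

variable {L : Type} [Finite L] {c : ℕ → ℕ → L}

theorem gc_block (V : Ultrafilter ℕ) (Q : ℕ → Prop) (hQ : ∀ᶠ y in V, Q y) (s : ℕ)
    (hs : s ≤ 1 ∨ NP V) : ∃ y : ℕ → ℕ, (∀ m, m < s → Q (y m) ∧ row c V (y m) = dd c V V) ∧
      (∀ m m', m < m' → m' < s → pr c (y m) (y m') = dd c V V) ∧
      ∀ m m', m < s → m' < s → y m = y m' → m = m' := by
  induction s with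
  | zero =>
    exact ⟨fun _ => 0, fun m hm => absurd hm (by omega), fun m m' _ hm => absurd hm (by omega),
      fun m m' hm => absurd hm (by omega)⟩
  | succ s ih =>
    obtain ⟨y, h1, h2, h3⟩ := ih (hs.imp (fun h => by omega) id)
    have e1 : ∀ᶠ v in V, ∀ m ∈ Set.Iio s, pr c (y m) v = row c V (y m) := by
      rw [eventually_all_finite (Set.finite_Iio s)]
      exact fun m _ => row_spec V (y m)
    have e2 : ∀ᶠ v in V, ∀ m, m < s → v ≠ y m := by
      rcases hs with hs | hs
      · exact Filter.Eventually.of_forall fun v m hm => absurd hm (by omega)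
      · have h4 := hs.ne (y '' Set.Iio s) ((Set.finite_Iio s).image y)
        filter_upwards [h4] with v hv m hm e
        exact hv ⟨m, hm, e.symm⟩
    obtain ⟨v, v1, v2, v3, v4⟩ := (hQ.and ((dd_spec (c := c) V V).and (e1.and e2))).exists
    refine ⟨fun m => if m < s then y m else v, fun m hm => ?_, fun m m' hmm hm' => ?_,
      fun m m' hm hm' e => ?_⟩
    · by_cases h : m < s
      · simp only [h, if_true]
        exact h1 m h
      · simp only [h, if_false]
        exact ⟨v1, v2⟩
    · have h : m < s := by omega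
      by_cases h' : m' < s
      · simp only [h, h', if_true]
        exact h2 m m' hmm h'
      · simp only [h, h', if_true, if_false]
        rw [v3 m h]
        exact (h1 m h).2
    · by_cases h : m < s
      · by_cases h' : m' < s
        · simp only [h, h', if_true] at e
          exact h3 m m' h h' e
        · simp only [h, h', if_true, if_false] at e
          exact absurd e.symm (v4 m h)
      · by_cases h' : m' < s
        · simp only [h, h', if_true, if_false] at e
          exact absurd e (v4 m' h')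
        · omega

private structure GSt (c : ℕ → ℕ → L) (Ξ W : Ultrafilter ℕ) where
  P : List ℕ
  Q : List ℕ
  hP : ∀ p ∈ P, row c Ξ p = dd c Ξ Ξ ∧ row c W p = dd c Ξ W
  hQ : ∀ q ∈ Q, row c Ξ q = dd c W Ξ ∧ row c W q = dd c W W

private theorem gc_step {ι : Type} (T : Ultrafilter ι) (x : ι → ℕ) (V : ι → Ultrafilter ℕ)
    (z : ℕ) (hΞ : NP (T.map x)) (hW : NP (T.bind V)) (hne : ∀ᶠ t in T, ∀ᶠ y in V t, y ≠ x t)
    (σ : GSt c (T.map x) (T.bind V)) (k : ℕ) (hk : k ≤ 1 ∨ ∀ t, NP (V t)) :
    ∃ (a : ℕ) (y : ℕ → ℕ), (a ∉ σ.P ∧ a ∉ σ.Q ∧ z ≠ a) ∧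
      (∀ m, m < k → y m ∉ σ.P ∧ y m ∉ σ.Q ∧ z ≠ y m ∧ y m ≠ a) ∧
      (∀ m m', m < k → m' < k → y m = y m' → m = m') ∧
      (row c (T.map x) a = dd c (T.map x) (T.map x) ∧
        row c (T.bind V) a = dd c (T.map x) (T.bind V)) ∧
      (∀ m, m < k → row c (T.map x) (y m) = dd c (T.bind V) (T.map x) ∧
        row c (T.bind V) (y m) = dd c (T.bind V) (T.bind V)) ∧
      (∀ p ∈ σ.P, pr c p a = dd c (T.map x) (T.map x)) ∧
      (∀ q ∈ σ.Q, pr c q a = dd c (T.bind V) (T.map x)) ∧
      pr c z a = row c (T.map x) z ∧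
      (∀ p ∈ σ.P, ∀ m, m < k → pr c p (y m) = dd c (T.map x) (T.bind V)) ∧
      (∀ q ∈ σ.Q, ∀ m, m < k → pr c q (y m) = dd c (T.bind V) (T.bind V)) ∧
      (∀ m, m < k → pr c z (y m) = row c (T.bind V) z) ∧
      (∀ m, m < k → pr c a (y m) = lm T fun t => row c (V t) (x t)) ∧
      ∀ m m', m < m' → m' < k → pr c (y m) (y m') = lm T fun t => dd c (V t) (V t) := by
  -- events along `map x T`
  have mp : ∀ p : ℕ → Prop, (∀ᶠ y in (T.map x : Ultrafilter ℕ), p y) → ∀ᶠ t in T, p (x t) := by
    intro p hp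
    rwa [Ultrafilter.coe_map, Filter.eventually_map] at hp
  have bd : ∀ p : ℕ → Prop, (∀ᶠ y in (T.bind V : Ultrafilter ℕ), p y) →
      ∀ᶠ t in T, ∀ᶠ y in V t, p y := fun p hp => (ev_bind T V p).1 hp
  have hrow : ∀ p, ∀ᶠ t in T, row c (V t) p = row c (T.bind V) p := by
    intro p
    have h1 : row c (T.bind V) p = lm T fun t => row c (V t) p := lm_bind T V _
    rw [h1]
    exact lm_spec T fun t => row c (V t) p
  have ea : ∀ᶠ t in T, ∀ p ∈ {p | p ∈ σ.P}, pr c p (x t) = row c (T.map x) p := by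
    rw [eventually_all_finite (List.finite_toSet _)]
    exact fun p _ => mp _ (row_spec _ p)
  have eb : ∀ᶠ t in T, ∀ p ∈ {p | p ∈ σ.Q}, pr c p (x t) = row c (T.map x) p := by
    rw [eventually_all_finite (List.finite_toSet _)]
    exact fun p _ => mp _ (row_spec _ p)
  have ec := mp _ (row_spec (c := c) (T.map x) z)
  have ed := mp _ (dd_spec (c := c) (T.map x) (T.map x))
  have ed' := mp _ (dd_spec (c := c) (T.map x) (T.bind V))
  have ee' := lm_spec T fun t => row c (V t) (x t)
  have ef := lm_spec T fun t => dd c (V t) (V t)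
  have eg : ∀ᶠ t in T, ∀ p ∈ {p | p ∈ σ.P}, row c (V t) p = row c (T.bind V) p := by
    rw [eventually_all_finite (List.finite_toSet _)]
    exact fun p _ => hrow p
  have eh : ∀ᶠ t in T, ∀ p ∈ {p | p ∈ σ.Q}, row c (V t) p = row c (T.bind V) p := by
    rw [eventually_all_finite (List.finite_toSet _)]
    exact fun p _ => hrow p
  have ei := hrow z
  have ej := bd _ (dd_spec (c := c) (T.bind V) (T.map x))
  have ej' := bd _ (dd_spec (c := c) (T.bind V) (T.bind V))
  have hfin : (({p | p ∈ σ.P} ∪ {p | p ∈ σ.Q}) ∪ {z}).Finite :=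
    ((List.finite_toSet _).union (List.finite_toSet _)).union (Set.finite_singleton z)
  have ek := mp _ (hΞ.ne _ hfin)
  have el := bd _ (hW.ne _ hfin)
  obtain ⟨t, ta, tb, tc, td, td', te, tf, tg, th, ti, tj, tj', tk, tl, tm⟩ :=
    (ea.and (eb.and (ec.and (ed.and (ed'.and (ee'.and (ef.and (eg.and (eh.and (ei.and (ej.and
      (ej'.and (ek.and (el.and hne)))))))))))))).exists
  -- the block
  have q1 : ∀ᶠ y in V t, ∀ p ∈ {p | p ∈ σ.P}, pr c p y = row c (V t) p := by
    rw [eventually_all_finite (List.finite_toSet _)]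
    exact fun p _ => row_spec _ p
  have q2 : ∀ᶠ y in V t, ∀ p ∈ {p | p ∈ σ.Q}, pr c p y = row c (V t) p := by
    rw [eventually_all_finite (List.finite_toSet _)]
    exact fun p _ => row_spec _ p
  have q3 := row_spec (c := c) (V t) z
  have q4 := row_spec (c := c) (V t) (x t)
  obtain ⟨y, y1, y2, y3⟩ := gc_block (c := c) (V t) _
    (q1.and (q2.and (q3.and (q4.and (tj.and (tj'.and (tl.and tm))))))) k
    (hk.imp id fun h => h t)
  have no : ∀ v, v ∉ ({p | p ∈ σ.P} ∪ {p | p ∈ σ.Q}) ∪ {z} → v ∉ σ.P ∧ v ∉ σ.Q ∧ z ≠ v := by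
    intro v hv
    exact ⟨fun h => hv (Or.inl (Or.inl h)), fun h => hv (Or.inl (Or.inr h)),
      fun h => hv (Or.inr h.symm)⟩
  refine ⟨x t, y, no _ tk, fun m hm => ?_, y3, ⟨td, td'⟩, fun m hm => ?_, fun p hp => ?_,
    fun q hq => ?_, tc, fun p hp m hm => ?_, fun q hq m hm => ?_, fun m hm => ?_, fun m hm => ?_,
    fun m m' hmm hm' => ?_⟩
  · obtain ⟨⟨-, -, -, -, -, -, h, h'⟩, -⟩ := y1 m hm
    obtain ⟨a1, a2, a3⟩ := no _ h
    exact ⟨a1, a2, a3, h'⟩
  · obtain ⟨⟨-, -, -, -, h, h', -, -⟩, -⟩ := y1 m hm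
    exact ⟨h, h'⟩
  · rw [ta p hp]
    exact (σ.hP p hp).1
  · rw [tb q hq]
    exact (σ.hQ q hq).1
  · obtain ⟨⟨h, -⟩, -⟩ := y1 m hm
    rw [h p hp, tg p hp]
    exact (σ.hP p hp).2
  · obtain ⟨⟨-, h, -⟩, -⟩ := y1 m hm
    rw [h q hq, th q hq]
    exact (σ.hQ q hq).2
  · obtain ⟨⟨-, -, h, -⟩, -⟩ := y1 m hm
    rw [h, ti]
  · obtain ⟨⟨-, -, -, h, -⟩, -⟩ := y1 m hm
    rw [h, te]
  · rw [y2 m m' hmm hm', tf]

theorem pf_GC (L : Type) [Finite L] : T_GC L := by
  classical
  intro c ι T x V s z hΞ hW hs hne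
  have hstep := fun (i : ℕ) (σ : GSt c (T.map x) (T.bind V)) =>
    gc_step T x V z hΞ hW hne σ (s i) (hs.imp (fun h => h i) id)
  choose a y h1 h2 h3 h4 h5 h6 h7 h8 h9 h10 h11 h12 h13 using hstep
  let next : ℕ → GSt c (T.map x) (T.bind V) → GSt c (T.map x) (T.bind V) := fun i σ =>
    { P := a i σ :: σ.P
      Q := (List.range (s i)).map (y i σ) ++ σ.Q
      hP := by
        intro p hp
        rcases List.mem_cons.1 hp with h | h
        · rw [h]
          exact h4 i σ
        · exact σ.hP p h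
      hQ := by
        intro q hq
        rcases List.mem_append.1 hq with h | h
        · obtain ⟨m, hm, e⟩ := List.mem_map.1 h
          rw [← e]
          exact h5 i σ m (List.mem_range.1 hm)
        · exact σ.hQ q h }
  let σ₀ : GSt c (T.map x) (T.bind V) := ⟨[], [], by simp, by simp⟩
  let st : ℕ → GSt c (T.map x) (T.bind V) := fun n => Nat.rec σ₀ (fun i σ => next i σ) n
  have hst : ∀ n, st (n + 1) = next n (st n) := fun n => rfl
  have mP : ∀ i j, i ≤ j → ∀ p ∈ (st i).P, p ∈ (st j).P := by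
    intro i j hij
    induction hij with
    | refl => exact fun p hp => hp
    | step _ ih =>
      intro p hp
      rw [hst]
      exact List.mem_cons_of_mem _ (ih p hp)
  have mQ : ∀ i j, i ≤ j → ∀ p ∈ (st i).Q, p ∈ (st j).Q := by
    intro i j hij
    induction hij with
    | refl => exact fun p hp => hp
    | step _ ih =>
      intro p hp
      rw [hst]
      exact List.mem_append_right _ (ih p hp)
  let x' : ℕ → ℕ := fun i => a i (st i)
  let y' : ℕ → ℕ → ℕ := fun i => y i (st i)
  have iP : ∀ i k, i < k → x' i ∈ (st k).P := by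
    intro i k hik
    refine mP (i + 1) k hik _ ?_
    rw [hst]
    exact List.mem_cons_self
  have iQ : ∀ i k m, i < k → m < s i → y' i m ∈ (st k).Q := by
    intro i k m hik hm
    refine mQ (i + 1) k hik _ ?_
    rw [hst]
    exact List.mem_append_left _ (List.mem_map.2 ⟨m, List.mem_range.2 hm, rfl⟩)
  refine ⟨x', y', ?_, ?_⟩
  · constructor
    · intro i k e
      rcases lt_trichotomy i k with h | h | h
      · have h14 := iP i k h
        rw [e] at h14
        exact absurd h14 (h1 k (st k)).1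
      · exact h
      · have h14 := iP k i h
        rw [← e] at h14
        exact absurd h14 (h1 i (st i)).1
    · intro i m k m' hm hm' e
      rcases lt_trichotomy i k with h | h | h
      · have h14 := iQ i k m h hm
        rw [e] at h14
        exact absurd h14 (h2 k (st k) m' hm').2.1
      · subst h
        exact ⟨rfl, h3 i (st i) m m' hm hm' e⟩
      · have h14 := iQ k i m' h hm'
        rw [← e] at h14
        exact absurd h14 (h2 i (st i) m hm).2.1
    · intro i k m hm e
      rcases lt_trichotomy i k with h | h | h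
      · have h14 := iP i k h
        rw [e] at h14
        exact (h2 k (st k) m hm).1 h14
      · subst h
        exact (h2 i (st i) m hm).2.2.2 e.symm
      · have h14 := iQ k i m h hm
        rw [← e] at h14
        exact (h1 i (st i)).2.1 h14
    · exact fun i k hik => h6 k (st k) _ (iP i k hik)
    · exact fun i k m hik hm => h9 k (st k) _ (iP i k hik) m hm
    · exact fun i k m hik hm => h7 k (st k) _ (iQ i k m hik hm)
    · exact fun i k m m' hik hm hm' => h10 k (st k) _ (iQ i k m hik hm) m' hm'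
    · exact fun i m hm => h12 i (st i) m hm
    · exact fun i m m' hmm hm' => h13 i (st i) m m' hmm hm'
  · exact ⟨fun i => (h1 i (st i)).2.2, fun i m hm => (h2 i (st i) m hm).2.2.1,
      fun i => h8 i (st i), fun i m hm => h11 i (st i) m hm⟩

end Pool.Agent.HC
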