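import Pool.Agent.H41.HC.Basic

/-! IDX: sets of infinite index. -/

set_option autoImplicit false

open Set Filter

namespace Pool.Agent.HC

/-- the hyperfilter is nonprincipal -/
theorem np_hyper : NP (Filter.hyperfilter ℕ) := fun _ hS => hS.compl_mem_hyperfilter

/-- sequences which are eventually different from every point -/
theorem np_map_of {T : Ultrafilter ℕ} {x : ℕ → ℕ}
    (h : ∀ b, ∀ᶠ t in T, x t ≠ b) : NP (T.map x) := by
  intro S hS
  change ∀ᶠ y in ((T.map x : Ultrafilter ℕ) : Filter ℕ), y ∈ Sᶜ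
  rw [Ultrafilter.coe_map, Filter.eventually_map]
  have h1 : ∀ᶠ t in T, ∀ a ∈ S, x t ≠ a := by
    rw [eventually_all_finite hS]
    exact fun a _ => h a
  filter_upwards [h1] with t h2 h3
  exact h2 _ h3 rfl

/-- subsingletons are small -/
theorem ev_sub {T : Ultrafilter ℕ} (hT : NP T) {p : ℕ → Prop}
    (h : ∀ t t', p t → p t' → t = t') : ∀ᶠ t in T, ¬ p t := by
  have hfin : {t | p t}.Finite := Set.Subsingleton.finite fun t ht t' ht' => h t t' ht ht'
  exact hT _ hfin

theorem pf_IDX (L : Type) [Finite L] : T_IDX L := by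
  classical
  intro c P hP
  -- the rows of the points of `P` on the complement
  let r : ℕ → ℕ → Option (L × L) := fun a x => if x ∈ P then none else some (pr c a x)
  have hinf : (r '' P).Infinite := by
    intro hfin
    apply hP
    have := hfin.to_subtype
    obtain ⟨k, ⟨e⟩⟩ := Finite.exists_equiv_fin (r '' P)
    refine ⟨k + 1, fun a => if h : a ∈ P then (e ⟨r a, mem_image_of_mem r h⟩).castSucc
      else Fin.last k, fun a ha a' ha' h z hz => ?_⟩
    simp only [ha, ha', dite_true, Fin.castSucc_inj, EmbeddingLike.apply_eq_iff_eq,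
      Subtype.mk.injEq] at h
    have h1 := congrFun h z
    simp only [r, hz, if_false, Option.some.injEq] at h1
    exact h1
  let emb := hinf.natEmbedding
  have ha : ∀ t : ℕ, ∃ a ∈ P, r a = (emb t : ℕ → Option (L × L)) := fun t => (emb t).2
  choose a haP har using ha
  have hinj : ∀ t t', r (a t) = r (a t') → t = t' := by
    intro t t' h
    rw [har, har] at h
    exact emb.injective (Subtype.ext h)
  let T : Ultrafilter ℕ := Filter.hyperfilter ℕ
  have hT : NP T := np_hyper
  let ρ : ℕ → L × L := fun x => lm T fun t => pr c (a t) x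
  have hρ : ∀ x, ∀ᶠ t in T, pr c (a t) x = ρ x := fun x => lm_spec T fun t => pr c (a t) x
  have hbad : ∀ᶠ t in T, ¬ ∀ x, x ∉ P → pr c (a t) x = ρ x := by
    refine ev_sub hT fun t t' h h' => hinj t t' ?_
    funext x
    by_cases hx : x ∈ P
    · simp only [r, hx, if_true]
    · simp only [r, hx, if_false, Option.some.injEq]
      rw [h x hx, h' x hx]
  have hex : ∀ t, ∃ x, (¬ ∀ x, x ∉ P → pr c (a t) x = ρ x) → x ∉ P ∧ pr c (a t) x ≠ ρ x := by
    intro t
    by_cases h : ∀ x, x ∉ P → pr c (a t) x = ρ x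
    · exact ⟨0, fun h' => absurd h h'⟩
    · have h2 := h
      push Not at h2
      obtain ⟨x, hx⟩ := h2
      exact ⟨x, fun _ => hx⟩
  choose x hx using hex
  have hx' : ∀ᶠ t in T, x t ∉ P ∧ pr c (a t) (x t) ≠ ρ (x t) := by
    filter_upwards [hbad] with t ht
    exact hx t ht
  have e1 : (T.map fun t => (a t, x t)).map Prod.fst = T.map a := Ultrafilter.map_map _ _ _
  have e2 : (T.map fun t => (a t, x t)).map Prod.snd = T.map x := Ultrafilter.map_map _ _ _
  refine ⟨T.map fun t => (a t, x t), ?_, ?_, ?_, ?_⟩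
  · rw [e1]
    refine np_map_of fun b => ?_
    refine ev_sub hT fun t t' h h' => hinj t t' ?_
    rw [h, h']
  · rw [e2]
    refine np_map_of fun b => ?_
    filter_upwards [hx', hρ b] with t h1 h2 h3
    rw [h3] at h1
    exact h1.2 h2
  · rw [Ultrafilter.coe_map, Filter.eventually_map]
    filter_upwards [hx'] with t h1
    exact ⟨haP t, h1.1⟩
  · rw [e1, e2, lm_map]
    have h3 : (dd c (T.map x) (T.map a)).swap = lm T fun s => ρ (x s) := by
      rw [dd, lm_map, ← lm_swap]
      refine lm_congr (Filter.Eventually.of_forall fun s => ?_)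
      rw [row, lm_map, ← lm_swap]
      rfl
    rw [h3]
    intro h
    have h4 := lm_spec T fun t => pr c (a t) (x t)
    have h5 := lm_spec T fun s => ρ (x s)
    obtain ⟨t, h6, h7, h8⟩ := (h4.and (h5.and hx')).exists
    exact h8.2 (h6.trans (h.trans h7.symm))

end Pool.Agent.HC
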