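import Pool.Agent.H41.HC.FINU
import Pool.Agent.H41.HC.CL
import Pool.Agent.H41.HC.GC
import Pool.Agent.H16.HC.CO1
import Pool.Agent.H16.HC.CO3
import Pool.Agent.H16.HC.CO4
import Pool.Agent.H76.HC.CO5
import Pool.Agent.H76.HC.CO6
import Pool.Agent.H76.HC.CO7

/-!
Structures without perfectly many types of infinite substructures have a bounded number of germs
at all directions.
-/

set_option autoImplicit false

open Set

namespace Pool.Agent.HC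

/-- **Lemma H.** -/
theorem germs_of_small (L : Type) [Finite L] (c : ℕ → ℕ → L) (hc : Small c) :
    ∃ m : ℕ, ∀ U, Dr c U →
      ∃ E : Finset ℕ, E.card ≤ m ∧ ∀ a, ∃ r ∈ E, ∃ A ∈ U, ∀ y ∈ A, pr c a y = pr c r y := by
  have hF1 := pf_F1 L (pf_GC L) (pf_CO1 L)
  have hF2 := pf_F2 L (pf_GC L) (pf_CO2 L) hF1
  have hF4 := pf_F4 L (pf_GC L) (pf_CO4 L)
  have hF5 := pf_F5 L (pf_GC L) (pf_CO7 L)
  have hF3 := pf_F3 L (pf_GC L) (pf_CO3 L) (pf_CO4 L) (pf_CO5 L) (pf_CO6 L) hF1 hF5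
  exact pf_FINU L hF1 hF2 hF3 hF4 (pf_F6 L hF4 hF5) (pf_IDX L) c hc

/-- the substructures of `x` on infinite sets, renumbered -/
def Sb {n : ℕ} {C : Type} (x : (ℕ → ℕ → Fin n) × (ℕ → C)) : Set ((ℕ → ℕ → Fin n) × (ℕ → C)) :=
  {y | ∃ f : ℕ → ℕ, Function.Injective f ∧ y = pb x f}

theorem germs_of_sub {n : ℕ} {C : Type} [MeasurableSpace C] [StandardBorelSpace C]
    (x : (ℕ → ℕ → Fin n) × (ℕ → C)) (hP : ¬ Pool.Agent.CW.PerfD (Sb x)) :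
    ∃ m : ℕ, ∀ U, Dr x.1 U →
      ∃ E : Finset ℕ, E.card ≤ m ∧ ∀ a, ∃ r ∈ E, ∃ A ∈ U, ∀ y ∈ A, pr x.1 a y = pr x.1 r y := by
  refine germs_of_small (Fin n) x.1 (small_of (Sb x) ?_ hP x ⟨id, Function.injective_id, rfl⟩)
  rintro y ⟨f, hf, rfl⟩ g hg
  exact ⟨f ∘ g, hf.comp hg, rfl⟩

end Pool.Agent.HC
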