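import Pool.Agent.H16.TK.Defs
import Mathlib.Order.Filter.Ultrafilter.Basic
import Mathlib.Order.Filter.Cofinite
import Mathlib.MeasureTheory.MeasurableSpace.Constructions

/-!
Vaught's conjecture for hereditary classes of binary structures: definitions and statements.

`c : ℕ → ℕ → L` is a structure with finitely many labels.
-/

set_option autoImplicit false

open Set Filter

namespace Pool.Agent.HC

/-- the label of a pair, in both directions -/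
def pr {L : Type} (c : ℕ → ℕ → L) (x y : ℕ) : L × L := (c x y, c y x)

/-- nonprincipal ultrafilters -/
def NP (V : Ultrafilter ℕ) : Prop := ∀ S : Set ℕ, S.Finite → Sᶜ ∈ V

theorem lm_ex {ι β : Type} [Finite β] (F : Ultrafilter ι) (f : ι → β) :
    ∃ b, ∀ᶠ i in F, f i = b := by
  by_contra h
  have h1 : ∀ b, ∀ᶠ i in F, f i ≠ b := fun b =>
    Ultrafilter.eventually_not.2 fun h2 => h ⟨b, h2⟩
  have h2 : ∀ᶠ i in F, ∀ b, f i ≠ b := Filter.eventually_all.2 h1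
  obtain ⟨i, hi⟩ := h2.exists
  exact hi (f i) rfl

/-- limits of functions with finitely many values along ultrafilters -/
noncomputable def lm {ι β : Type} [Finite β] (F : Ultrafilter ι) (f : ι → β) : β :=
  (lm_ex F f).choose

variable {L : Type} [Finite L]

/-- the row of an ultrafilter -/
noncomputable def row (c : ℕ → ℕ → L) (V : Ultrafilter ℕ) (x : ℕ) : L × L :=
  lm V fun y => pr c x y

/-- the iterated limit, first along `W`, then along `V` -/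
noncomputable def dd (c : ℕ → ℕ → L) (V W : Ultrafilter ℕ) : L × L :=
  lm V fun x => row c W x

/-- There is no Borel family of substructures with one common marked point which are pairwise
not isomorphic over the marked point. -/
def Small (c : ℕ → ℕ → L) : Prop :=
  ∀ (A : (ℕ → Bool) → Set ℕ) (z : ℕ), (∀ v, MeasurableSet {K | v ∈ A K}) →
    (∀ K, (A K).Infinite) → (∀ K, z ∈ A K) →
    ∃ K K', K ≠ K' ∧ ∃ g : ℕ → ℕ, BijOn g (A K) (A K') ∧
      (∀ x ∈ A K, ∀ y ∈ A K, pr c (g x) (g y) = pr c x y) ∧ g z = z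

/-- Configurations: points `x i` and blocks of `s i` points `y i m`, `m < s i`. -/
structure Cfg (c : ℕ → ℕ → L) (s : ℕ → ℕ) (X α β A γ B : L × L) (x : ℕ → ℕ)
    (y : ℕ → ℕ → ℕ) : Prop where
  xi : Function.Injective x
  yi : ∀ i m k m', m < s i → m' < s k → y i m = y k m' → i = k ∧ m = m'
  xy : ∀ i k m, m < s k → x i ≠ y k m
  xx : ∀ i k, i < k → pr c (x i) (x k) = X
  ax : ∀ i k m, i < k → m < s k → pr c (x i) (y k m) = α
  bx : ∀ i k m, i < k → m < s i → pr c (y i m) (x k) = β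
  aa : ∀ i k m m', i < k → m < s i → m' < s k → pr c (y i m) (y k m') = A
  gg : ∀ i m, m < s i → pr c (x i) (y i m) = γ
  bb : ∀ i m m', m < m' → m' < s i → pr c (y i m) (y i m') = B

/-- the marked point `z` of a configuration -/
structure Par (c : ℕ → ℕ → L) (s : ℕ → ℕ) (z : ℕ) (μ ν : L × L) (x : ℕ → ℕ)
    (y : ℕ → ℕ → ℕ) : Prop where
  zx : ∀ i, z ≠ x i
  zy : ∀ i m, m < s i → z ≠ y i m
  px : ∀ i, pr c z (x i) = μ
  py : ∀ i m, m < s i → pr c z (y i m) = ν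

/-- GC: configurations from ultrafilters. -/
def T_GC (L : Type) [Finite L] : Prop :=
  ∀ (c : ℕ → ℕ → L) (ι : Type) (T : Ultrafilter ι) (x : ι → ℕ) (V : ι → Ultrafilter ℕ)
    (s : ℕ → ℕ) (z : ℕ), NP (T.map x) → NP (T.bind V) →
    ((∀ i, s i ≤ 1) ∨ ∀ t, NP (V t)) → (∀ᶠ t in T, ∀ᶠ y in V t, y ≠ x t) →
    ∃ (x' : ℕ → ℕ) (y' : ℕ → ℕ → ℕ),
      Cfg c s (dd c (T.map x) (T.map x)) (dd c (T.map x) (T.bind V)) (dd c (T.bind V) (T.map x))
        (dd c (T.bind V) (T.bind V)) (lm T fun t => row c (V t) (x t))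
        (lm T fun t => dd c (V t) (V t)) x' y' ∧
      Par c s z (row c (T.map x) z) (row c (T.bind V) z) x' y'

/-- CO1: keep all `x i`, and `y i 0` if `K i`. -/
def T_CO1 (L : Type) [Finite L] : Prop :=
  ∀ (c : ℕ → ℕ → L), Small c → ∀ (s : ℕ → ℕ) (X α β A γ B μ ν : L × L) (z : ℕ) (x : ℕ → ℕ)
    (y : ℕ → ℕ → ℕ), Cfg c s X α β A γ B x y → (∀ i, 1 ≤ s i) → Par c s z μ ν x y → μ ≠ ν →
    α = β.swap

/-- CO2: keep all `x i`, and `y i 0` if `K i`. -/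
def T_CO2 (L : Type) [Finite L] : Prop :=
  ∀ (c : ℕ → ℕ → L), Small c → ∀ (s : ℕ → ℕ) (X α β A γ B μ ν : L × L) (z : ℕ) (x : ℕ → ℕ)
    (y : ℕ → ℕ → ℕ), Cfg c s X α β A γ B x y → (∀ i, 1 ≤ s i) → Par c s z μ ν x y → μ ≠ ν →
    X ≠ X.swap → α = β.swap → γ = α

/-- CO3: keep all `x i`, and the block `i` if `K i`. -/
def T_CO3 (L : Type) [Finite L] : Prop :=
  ∀ (c : ℕ → ℕ → L), Small c → ∀ (s : ℕ → ℕ) (X α β A γ B μ ν : L × L) (z : ℕ) (x : ℕ → ℕ)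
    (y : ℕ → ℕ → ℕ), Cfg c s X α β A γ B x y → (∀ i, s i = i + 2) → Par c s z μ ν x y → μ ≠ ν →
    α = β.swap → γ = α

/-- CO4: keep all `x i`, and `y i 0` if `K i`. -/
def T_CO4 (L : Type) [Finite L] : Prop :=
  ∀ (c : ℕ → ℕ → L), Small c → ∀ (s : ℕ → ℕ) (α A γ B : L × L) (x : ℕ → ℕ)
    (y : ℕ → ℕ → ℕ), Cfg c s α α A A γ B x y → (∀ i, 1 ≤ s i) → α ≠ α.swap → A = A.swap → False

/-- CO5: keep all `x i`, and `y i 0` if `K i`. -/
def T_CO5 (L : Type) [Finite L] : Prop :=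
  ∀ (c : ℕ → ℕ → L), Small c → ∀ (s : ℕ → ℕ) (α A γ B : L × L) (x : ℕ → ℕ)
    (y : ℕ → ℕ → ℕ), Cfg c s α α A A γ B x y → (∀ i, 1 ≤ s i) → α = α.swap → A = A.swap →
    A ≠ α → γ ≠ α → False

/-- CO6: keep all `x i`, and the block `i` if `K i`. -/
def T_CO6 (L : Type) [Finite L] : Prop :=
  ∀ (c : ℕ → ℕ → L), Small c → ∀ (s : ℕ → ℕ) (A γ : L × L) (x : ℕ → ℕ)
    (y : ℕ → ℕ → ℕ), Cfg c s A A A A γ A x y → (∀ i, s i = i + 2) → A = A.swap → γ = A

/-- CO7: keep the blocks `2 i` (if `K i`) or `2 i + 1` (if not) and no `x i`. -/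
def T_CO7 (L : Type) [Finite L] : Prop :=
  ∀ (c : ℕ → ℕ → L), Small c → ∀ (s : ℕ → ℕ) (X α β A γ B : L × L) (x : ℕ → ℕ)
    (y : ℕ → ℕ → ℕ), Cfg c s X α β A γ B x y → (∀ i, s i = i + 2) → B = A ∨ B = A.swap

/-- F1: limits along ultrafilters with distinct rows can be interchanged. -/
def T_F1 (L : Type) [Finite L] : Prop :=
  ∀ (c : ℕ → ℕ → L), Small c → ∀ (V W : Ultrafilter ℕ) (z : ℕ), NP V → NP W →
    row c V z ≠ row c W z → dd c V W = (dd c W V).swap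

/-- F2: chains have no links. -/
def T_F2 (L : Type) [Finite L] : Prop :=
  ∀ (c : ℕ → ℕ → L), Small c → ∀ (Φ : Ultrafilter (ℕ × ℕ)) (z : ℕ), NP (Φ.map Prod.fst) →
    NP (Φ.map Prod.snd) → row c (Φ.map Prod.fst) z ≠ row c (Φ.map Prod.snd) z →
    dd c (Φ.map Prod.fst) (Φ.map Prod.fst) ≠ (dd c (Φ.map Prod.fst) (Φ.map Prod.fst)).swap →
    lm Φ (fun p : ℕ × ℕ => pr c p.1 p.2) = dd c (Φ.map Prod.fst) (Φ.map Prod.snd)

/-- F4: chains and cells have distinct rows. -/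
def T_F4 (L : Type) [Finite L] : Prop :=
  ∀ (c : ℕ → ℕ → L), Small c → ∀ (V W : Ultrafilter ℕ), NP V → NP W →
    row c V = row c W → dd c V V ≠ (dd c V V).swap → dd c W W = (dd c W W).swap → False

/-- F5: the label of a limit of ultrafilters. -/
def T_F5 (L : Type) [Finite L] : Prop :=
  ∀ (c : ℕ → ℕ → L), Small c → ∀ (T : Ultrafilter ℕ) (V : ℕ → Ultrafilter ℕ), NP T →
    (∀ t, NP (V t)) → (lm T fun t => dd c (V t) (V t)) = dd c (T.bind V) (T.bind V) ∨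
      (lm T fun t => dd c (V t) (V t)) = (dd c (T.bind V) (T.bind V)).swap

/-- F3: cells have only finitely many rows. -/
def T_F3 (L : Type) [Finite L] : Prop :=
  ∀ (c : ℕ → ℕ → L), Small c → ∀ (T : Ultrafilter ℕ) (V : ℕ → Ultrafilter ℕ), NP T →
    (∀ t, NP (V t)) → (∀ t, dd c (V t) (V t) = (dd c (V t) (V t)).swap) →
    ∀ᶠ t in T, row c (V t) = row c (T.bind V)

/-- F6: the rows of cells are not limits of rows of chains. -/
def T_F6 (L : Type) [Finite L] : Prop :=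
  ∀ (c : ℕ → ℕ → L), Small c → ∀ (T : Ultrafilter ℕ) (V : ℕ → Ultrafilter ℕ)
    (W : Ultrafilter ℕ), NP T → (∀ t, NP (V t)) →
    (∀ t, dd c (V t) (V t) ≠ (dd c (V t) (V t)).swap) → NP W →
    dd c W W = (dd c W W).swap → row c W = row c (T.bind V) → False

/-- finitely many classes over the complement -/
def FiP (c : ℕ → ℕ → L) (P : Set ℕ) : Prop :=
  ∃ (k : ℕ) (f : ℕ → Fin k), ∀ a ∈ P, ∀ a' ∈ P, f a = f a' → ∀ z, z ∉ P → pr c a z = pr c a' z

/-- IDX: sets of infinite index. -/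
def T_IDX (L : Type) [Finite L] : Prop :=
  ∀ (c : ℕ → ℕ → L) (P : Set ℕ), ¬ FiP c P → ∃ Φ : Ultrafilter (ℕ × ℕ),
    NP (Φ.map Prod.fst) ∧ NP (Φ.map Prod.snd) ∧ (∀ᶠ p : ℕ × ℕ in (Φ : Filter (ℕ × ℕ)), p.1 ∈ P ∧ p.2 ∉ P) ∧
      lm Φ (fun p : ℕ × ℕ => pr c p.1 p.2) ≠ (dd c (Φ.map Prod.snd) (Φ.map Prod.fst)).swap

/-- directions -/
structure Dr (c : ℕ → ℕ → L) (U : Set (Set ℕ)) : Prop where
  fi : ∀ A ∈ U, FiP c A ∧ A.Infinite
  int : ∀ A ∈ U, ∀ B ∈ U, A ∩ B ∈ U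
  ult : ∀ A, FiP c A → A ∈ U ∨ Aᶜ ∈ U

/-- FIN: small structures have finitely many germs at every direction. -/
def T_FIN (L : Type) [Finite L] : Prop :=
  ∀ (c : ℕ → ℕ → L), Small c → ∀ U, Dr c U →
    ∃ E : Finset ℕ, ∀ a, ∃ r ∈ E, ∃ A ∈ U, ∀ y ∈ A, pr c a y = pr c r y

end Pool.Agent.HC
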